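import Pool.Agent.Y19.QT.ML

/-!
# The Lindelöf bound with powers of logarithms for almost all quadratic twists, over multiquadratic fields

`E : y² = x³ + a x + b` is an elliptic curve over `ℚ`, `F = ℚ(√e_1, …, √e_n)` a multiquadratic field of
degree `2ⁿ` (`n = 0`: `F = ℚ`), `π` the representation of `PGL₂` of the adeles of `F` attached to `E` over `F`, and for
a squarefree integer `d` (positive or negative) `χ_d` is the quadratic character of `F` attached to `F(√d)`, so that
`L(s, π ⊗ χ_d) = L(E_d/F, s + 1/2)` with the quadratic twist `E_d : y² = x³ + a d² x + b d³`.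

The Lindelöf bound asks for `|L(1/2, π ⊗ χ_d)| ≤ C |d|^β` for every `β > 0`. We prove, without any hypothesis, for all
`E` with `j`-invariant `0` or `1728` and for all quadratic twists of `X₀(11)` and `X₀(14)`, and for every elliptic curve
over `ℚ` whose quadratic twists are modular, for every `n` and every `F` as above:

* for every `k` there is a `k'` such that for all `|d| ≤ X` except `O(X / (log X)^k)` and for all real `t`
  `|L(1/2 + i t, π ⊗ χ_d)| ≤ ((log X) (2 + |t|))^k'`; in particular the Lindelöf bound holds at the central point, and
  in fact with a power of `log |d|` instead of `|d|^β`, for all `d` outside a set of density zero;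
* at most `C X^(1 - 2 β / 2ⁿ) (log X)^A` of the `|d| ≤ X` violate `|L(1/2 + i t, π ⊗ χ_d)| ≤ X^β (2 + |t|)^B` for
  some real `t`, for every `β ≥ 0`;
* `∑_{|d| ≤ X} sup_t |L(1/2 + i t, π ⊗ χ_d)|^(2 / 2ⁿ) / (2 + |t|)^B ≤ C X (log X)^A`.

Method (modules `Pool.Agent.Y19.QT`): a large sieve inequality for quadratic characters with a loss of a power of `log X`
only for the coefficients of the newform, proved by the Poisson summation formula in `d`, the functional equations of all
the twists and the embedding `d ↦ d p²` of the family into a longer one; then the factorisation of the `L`-function over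
`F` into `2ⁿ` twists over `ℚ` and the inequality between the arithmetic and the geometric mean.
-/

set_option autoImplicit false

namespace Pool.Agent.Results.MP_21d687_nt.AlmostAllTwists

open Pool.Agent.Y19.QT

theorem result : (∀ a b : ℤ, Fam a b → MultiLindelofLaw a b) ∧
    ∀ a b : ℤ, 4 * a ^ 3 + 27 * b ^ 2 ≠ 0 → TwistsModular a b → MultiLindelofLaw a b :=
  ⟨fun _ _ h => multiLindelof_fam h, fun _ _ hab h => multiLindelof_modular hab h⟩

end Pool.Agent.Results.MP_21d687_nt.AlmostAllTwists
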