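import Mathlib
import Pool.Agent.Y19.QT.ML
import Pool.Agent.Q21.DW.Dy
import Pool.Agent.Q319.DR.MultP

/-!
# The Lindelöf bound for all quadratic twists in windows around the multiples of one real number

Let `E : y² = x³ + a x + b`, `F = ℚ(√e_1, …, √e_n)` a multiquadratic field of degree `2ⁿ` (`n = 0`: `F = ℚ`),
`π` the representation of `PGL₂` of the adeles of `F` attached to `E` over `F`; for a squarefree integer `d`
let `χ_d` be the quadratic character of `F` attached to `F(√d)`, so that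
`L(s, π ⊗ χ_d) = L(E_d/F, s + 1/2)`.

For all `β > 0` and `0 < θ < 1` there is `c > 0` such that for all elliptic curves over `ℚ` with `j`-invariant `0`
or `1728`, all quadratic twists of `X₀(11)` and `X₀(14)` and all elliptic curves over `ℚ` whose quadratic
twists are modular, and all real numbers `y` in `[N ^ (1 - θ), 2 N ^ (1 - θ)]` outside a set of measure at most
`N ^ (1 - θ - c)`: for all `k ≤ N ^ θ` with at most `N ^ (θ - c)` exceptions, EVERY squarefree `d` with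
`||d| - k y| ≤ N ^ c` satisfies the Lindelöf bound `|L(1/2 + i t, π ⊗ χ_d)| ≤ |d|^β (2 + |t|)^B` for all real `t`.
-/

set_option autoImplicit false

namespace Pool.Agent.Results.MP_21d687_nt.DiscriminantsAtRealMultiples

open Pool.Agent.Y19.QT Complex MeasureTheory

/-- The elliptic curve `E : y² = x³ + a x + b` is one of the curves of the theorem: its `j`-invariant is `0` or
`1728`, or it is a quadratic twist of `X₀(11)` or `X₀(14)`, or all its quadratic twists are modular. -/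
def Admitted (a b : ℤ) : Prop := Fam a b ∨ (4 * a ^ 3 + 27 * b ^ 2 ≠ 0 ∧ TwistsModular a b)

/-- The bound `|L(E_d/K, 1 + i t)| ≤ m^β (2 + |t|)^B`, for all real `t` and both squarefree integers `d = ± m`;
`L(E_d/K, s)` is the `L`-function of `E_d : y² = x³ + a d² x + b d³` over `K` without the Euler factors at the
places dividing `2 (4a³ + 27b²) d D`, with centre `s = 1`. -/
def Lindelof (K : Type) [Field K] [NumberField K] (D : ℤ) (β : ℝ) (B : ℕ) (a b : ℤ) (m : ℕ) : Prop :=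
  ∀ d : ℤ, d.natAbs = m → Squarefree d → ∀ F : ℂ → ℂ, IsLFunK K (a * d ^ 2) (b * d ^ 3) D F →
    ∀ t : ℝ, ‖F (1 + t * I)‖ ≤ (m : ℝ) ^ β * (2 + |t|) ^ B

section

variable (K : Type) [Field K] [NumberField K]

lemma law {a b : ℤ} (h : Admitted a b) : MultiLindelofLaw a b := by
  rcases h with h | ⟨h1, h2⟩
  · exact multiLindelof_fam h
  · exact multiLindelof_modular h1 h2

lemma absorb {s t : ℝ} (hst : s < t) (A : ℕ) : ∃ C : ℝ, 0 ≤ C ∧ ∀ N : ℕ, 1 ≤ N →
    (N : ℝ) ^ s * Real.log N ^ A ≤ C * (N : ℝ) ^ t := by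
  set ε : ℝ := (t - s) / (A + 1) with hε
  have hA : (0 : ℝ) < (A : ℝ) + 1 := by positivity
  have hε0 : 0 < ε := div_pos (by linarith) hA
  refine ⟨(1 / ε) ^ A, by positivity, fun N hN => ?_⟩
  have hN1 : (1 : ℝ) ≤ N := by exact_mod_cast hN
  have hN0 : (0 : ℝ) < N := by linarith
  have h1 : Real.log N ≤ (N : ℝ) ^ ε / ε := Real.log_le_rpow_div hN0.le hε0
  have h2 : Real.log N ^ A ≤ ((N : ℝ) ^ ε / ε) ^ A := pow_le_pow_left₀ (Real.log_nonneg hN1) h1 A
  have h3 : ((N : ℝ) ^ ε / ε) ^ A = (1 / ε) ^ A * (N : ℝ) ^ (ε * A) := by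
    rw [div_eq_mul_one_div, mul_pow, ← Real.rpow_natCast ((N : ℝ) ^ ε), ← Real.rpow_mul hN0.le]
    ring
  have h4 : s + ε * A ≤ t := by
    have h5 : ε * A ≤ ε * (A + 1) := mul_le_mul_of_nonneg_left (by linarith) hε0.le
    have h6 : ε * (A + 1) = t - s := by rw [hε]; field_simp
    linarith
  calc (N : ℝ) ^ s * Real.log N ^ A ≤ (N : ℝ) ^ s * ((1 / ε) ^ A * (N : ℝ) ^ (ε * A)) := by
        rw [← h3]
        exact mul_le_mul_of_nonneg_left h2 (by positivity)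
    _ = (1 / ε) ^ A * (N : ℝ) ^ (s + ε * A) := by
        rw [Real.rpow_add hN0]
        ring
    _ ≤ _ := mul_le_mul_of_nonneg_left (Real.rpow_le_rpow_of_exponent_le hN1 h4) (by positivity)

/-- few exceptions, with a power saving -/
lemma ps {a b : ℤ} (h : MultiLindelofLaw a b) (n : ℕ) (e : Fin n → ℤ) (he : Indep e) (x : Fin n → K)
    (hx : ∀ i, x i ^ 2 = (e i : K)) (hK : IntermediateField.adjoin ℚ (Set.range x) = ⊤) (β : ℝ)
    (hβ : 0 < β) (hβn : 2 * β ≤ 2 ^ n) :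
    ∃ B : ℕ, Pool.Agent.Q21.DW.PS (1 - 2 * β / 2 ^ n)
      (fun m => ¬ Lindelof K (∏ i, e i) β B a b m) := by
  classical
  obtain ⟨hex, hlaw⟩ := h n e he K x hx hK
  choose! F hF hFu using hex
  obtain ⟨⟨C, A, B, -, hcount⟩, -⟩ := hlaw F hF
  refine ⟨B + ⌈β⌉₊, ?_⟩
  have hn0 : (0 : ℝ) < 2 ^ n := by positivity
  have hs0 : 0 ≤ 1 - 2 * β / 2 ^ n := by
    rw [sub_nonneg, div_le_one hn0]
    exact hβn
  refine Pool.Agent.Q21.DW.ps_dyadic' hs0 fun t ht => ?_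
  obtain ⟨C', hC'0, hC'⟩ := absorb ht A
  refine ⟨|C| * C', 3, fun N hN3 hN1 => ?_⟩
  have hNR : (1 : ℝ) ≤ N := by exact_mod_cast hN1
  have hN0 : (0 : ℝ) < N := by linarith
  set S : Finset ℤ := (sqf N).filter (fun d => ∃ t : ℝ, (N : ℝ) ^ β * (2 + |t|) ^ B < ‖F d (1 + t * I)‖)
    with hS
  have hcard := hcount N β S hN3 hβ.le (Finset.filter_subset _ _)
    (fun d hd => (Finset.mem_filter.1 hd).2)
  have hsub : ({m : ℕ | 1 ≤ m ∧ m ≤ N ∧ N < 2 * m ∧
      ¬ Lindelof K (∏ i, e i) β (B + ⌈β⌉₊) a b m} : Set ℕ) ⊆ ((S.image Int.natAbs : Finset ℕ) : Set ℕ) := by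
    rintro m ⟨hm1, hmN, hNm, hbad⟩
    unfold Lindelof at hbad
    push Not at hbad
    obtain ⟨d, hdm, hd, G, hG, t, ht⟩ := hbad
    have hGF : G = F d := hFu d hd G hG
    rw [Finset.coe_image, Set.mem_image]
    refine ⟨d, ?_, hdm⟩
    rw [Finset.mem_coe, hS, Finset.mem_filter, mem_sqf]
    refine ⟨⟨?_, hd⟩, t, ?_⟩
    · rw [Int.abs_eq_natAbs, hdm]
      exact_mod_cast hmN
    · rw [← hGF]
      refine lt_of_le_of_lt ?_ ht
      have hm0 : (0 : ℝ) < m := by exact_mod_cast hm1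
      have hu : (2 : ℝ) ≤ 2 + |t| := by linarith [abs_nonneg t]
      have h2m : (N : ℝ) ≤ 2 * m := by exact_mod_cast hNm.le
      have h1 : (N : ℝ) ^ β ≤ 2 ^ β * (m : ℝ) ^ β := by
        rw [← Real.mul_rpow (by norm_num) hm0.le]
        exact Real.rpow_le_rpow hN0.le h2m hβ.le
      have h2 : (2 : ℝ) ^ β ≤ (2 + |t|) ^ ⌈β⌉₊ := by
        calc (2 : ℝ) ^ β ≤ 2 ^ ((⌈β⌉₊ : ℕ) : ℝ) :=
              Real.rpow_le_rpow_of_exponent_le (by norm_num) (Nat.le_ceil β)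
          _ = 2 ^ ⌈β⌉₊ := Real.rpow_natCast _ _
          _ ≤ _ := pow_le_pow_left₀ (by norm_num) hu _
      calc (N : ℝ) ^ β * (2 + |t|) ^ B ≤ (2 ^ β * (m : ℝ) ^ β) * (2 + |t|) ^ B :=
            mul_le_mul_of_nonneg_right h1 (by positivity)
        _ ≤ ((2 + |t|) ^ ⌈β⌉₊ * (m : ℝ) ^ β) * (2 + |t|) ^ B := by gcongr
        _ = (m : ℝ) ^ β * (2 + |t|) ^ (B + ⌈β⌉₊) := by rw [pow_add]; ring
  calc (({m : ℕ | 1 ≤ m ∧ m ≤ N ∧ N < 2 * m ∧
      ¬ Lindelof K (∏ i, e i) β (B + ⌈β⌉₊) a b m} : Set ℕ).ncard : ℝ)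
      ≤ (((S.image Int.natAbs : Finset ℕ) : Set ℕ).ncard : ℝ) := by
        exact_mod_cast Set.ncard_le_ncard hsub (Finset.finite_toSet _)
    _ = ((S.image Int.natAbs).card : ℝ) := by rw [Set.ncard_coe_finset]
    _ ≤ (S.card : ℝ) := by exact_mod_cast Finset.card_image_le
    _ ≤ C * (N : ℝ) ^ (1 - 2 * β / 2 ^ n) * Real.log N ^ A := hcard
    _ ≤ |C| * ((N : ℝ) ^ (1 - 2 * β / 2 ^ n) * Real.log N ^ A) := by
        rw [mul_assoc]
        refine mul_le_mul_of_nonneg_right (le_abs_self C) ?_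
        have := Real.log_nonneg hNR
        positivity
    _ ≤ |C| * (C' * (N : ℝ) ^ t) := mul_le_mul_of_nonneg_left (hC' N hN1) (abs_nonneg C)
    _ = _ := by ring

end

open Classical in
/-- The number of the `k` with `1 ≤ k ≤ X` for which not all natural numbers `m` at a distance of at most
`w` from `k y` have the property `G`. -/
noncomputable def exceptions (X : ℝ) (y w : ℝ) (G : ℕ → Prop) : ℕ :=
  ((Finset.Icc 1 ⌊X⌋₊).filter (fun k : ℕ => ∃ m : ℕ, |(m : ℝ) - k * y| ≤ w ∧ ¬ G m)).card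

/-- **Theorem.** Let `K = ℚ(√e_1, …, √e_n)` be a multiquadratic field of degree `2ⁿ`, `β > 0` and `0 < θ < 1`. There
is `c > 0` such that for every admitted elliptic curve `y² = x³ + a x + b` there are `B` and `N₀` such that for
all `N ≥ N₀` there is a set `S` of real numbers of measure at most `N ^ (1 - θ - c)` with the following property.
Let `y` be a real number with `N ^ (1 - θ) ≤ y ≤ 2 N ^ (1 - θ)` which does not belong to `S`. For all `k ≤ N ^ θ`,
with at most `N ^ (θ - c)` exceptions, EVERY natural number `m` with `|m - k y| ≤ N ^ c` has the property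
`Lindelof K (∏ i, e i) β B a b m`. -/
theorem result (n : ℕ) (e : Fin n → ℤ) (he : Indep e) (K : Type) [Field K] [NumberField K]
    (x : Fin n → K) (hx : ∀ i, x i ^ 2 = (e i : K))
    (hK : IntermediateField.adjoin ℚ (Set.range x) = ⊤) (β : ℝ) (hβ : 0 < β) (θ : ℝ) (hθ : 0 < θ)
    (hθ1 : θ < 1) :
    ∃ c : ℝ, 0 < c ∧ ∀ a b : ℤ, Admitted a b → ∃ B N₀ : ℕ, ∀ N : ℕ, N₀ ≤ N →
      ∃ S : Set ℝ, MeasurableSet S ∧ volume S ≤ ENNReal.ofReal ((N : ℝ) ^ (1 - θ - c)) ∧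
        ∀ y : ℝ, (N : ℝ) ^ (1 - θ) ≤ y → y ≤ 2 * (N : ℝ) ^ (1 - θ) → y ∉ S →
          (exceptions ((N : ℝ) ^ θ) y ((N : ℝ) ^ c) (Lindelof K (∏ i, e i) β B a b) : ℝ) ≤
            (N : ℝ) ^ (θ - c) := by
  classical
  set γ : ℝ := min β (1 / 2) with hγ
  have hγ0 : 0 < γ := lt_min hβ (by norm_num)
  have hγ1 : γ ≤ 1 / 2 := min_le_right _ _
  have hγβ : γ ≤ β := min_le_left _ _
  have hn1 : (1 : ℝ) ≤ 2 ^ n := one_le_pow₀ (by norm_num)
  have hn0 : (0 : ℝ) < 2 ^ n := by positivity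
  obtain ⟨c, hc, h⟩ := Pool.Agent.Q319.DR.mult_fewP θ hθ hθ1 (γ / 2 ^ n) (by positivity)
  refine ⟨c, hc, fun a b hab => ?_⟩
  obtain ⟨B, hB⟩ := ps K (law hab) n e he x hx hK γ hγ0 (by linarith)
  obtain ⟨C, hC⟩ := hB (1 - γ / 2 ^ n) (by
    have : 0 < γ / 2 ^ n := by positivity
    have h2 : 2 * γ / 2 ^ n = 2 * (γ / 2 ^ n) := by ring
    rw [h2]
    linarith)
  have hT : ∀ X : ℕ, (((Finset.Ioc 0 X).filter
      (fun m => m ∈ {m : ℕ | ¬ Lindelof K (∏ i, e i) β B a b m})).card : ℝ) ≤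
      |C| * (X : ℝ) ^ (1 - γ / 2 ^ n) := by
    intro X
    rcases Nat.eq_zero_or_pos X with rfl | hX
    · simp only [Finset.Ioc_self, Finset.filter_empty, Finset.card_empty, Nat.cast_zero]
      positivity
    · refine le_trans ?_ ((hC X hX).trans (mul_le_mul_of_nonneg_right (le_abs_self C) (by positivity)))
      refine Nat.cast_le.2 (Pool.Agent.Q21.DW.card_mono fun m hm hbad => ?_)
      rw [Finset.mem_Ioc] at hm
      refine ⟨Finset.mem_Icc.2 ⟨hm.1, hm.2⟩, fun hgood => hbad ?_⟩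
      intro d hd hsq F hF t
      refine (hgood d hd hsq F hF t).trans ?_
      have hm1 : (1 : ℝ) ≤ m := by exact_mod_cast hm.1
      exact mul_le_mul_of_nonneg_right (Real.rpow_le_rpow_of_exponent_le hm1 hγβ) (by positivity)
  obtain ⟨N₀, hN⟩ := h |C| {m : ℕ | ¬ Lindelof K (∏ i, e i) β B a b m} (fun X => by convert hT X)
  refine ⟨B, N₀, fun N hNN => ?_⟩
  obtain ⟨S, hS1, hS2, hS3⟩ := hN N hNN
  refine ⟨S, hS1, hS2, fun y hy1 hy2 hy3 => ?_⟩
  convert hS3 y hy1 hy2 hy3 using 2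
  all_goals rfl

end Pool.Agent.Results.MP_21d687_nt.DiscriminantsAtRealMultiples
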