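import Mathlib
import Pool.Agent.Y19.QT.ML
import Pool.Agent.Q21.DW.Dy

/-!
# The Lindelöf bound for the quadratic twists by random discriminants

Let `E : y² = x³ + a x + b`, `F = ℚ(√e_1, …, √e_n)` a multiquadratic field of degree `2ⁿ` (`n = 0`: `F = ℚ`),
`π` the representation of `PGL₂` of the adeles of `F` attached to `E` over `F`; for a squarefree integer `d`
let `χ_d` be the quadratic character of `F` attached to `F(√d)`, so that
`L(s, π ⊗ χ_d) = L(E_d/F, s + 1/2)`.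

For every `β > 0` the Lindelöf bound `|L(1/2 + i t, π ⊗ χ_d)| ≤ |d|^β (2 + |t|)^B` holds, for all real `t` and
without exception, for all squarefree integers `d` whose absolute values are written by large windows of
digits of a random real number, or are close to the multiples `α v_k` of a random real number (in the sense
of `RandomReals s`, `s = 1 - 2 β / 2ⁿ`), at once for all elliptic curves over `ℚ` with `j`-invariant `0`
or `1728`, all quadratic twists of `X₀(11)` and `X₀(14)` and all elliptic curves over `ℚ` whose quadratic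
twists are modular.
-/

set_option autoImplicit false

namespace Pool.Agent.Results.MP_21d687_nt.RandomDiscriminants

open Pool.Agent.Y19.QT Complex

/-- The elliptic curve `E : y² = x³ + a x + b` is one of the curves of the theorem: its `j`-invariant is `0` or
`1728`, or it is a quadratic twist of `X₀(11)` or `X₀(14)`, or all its quadratic twists are modular. -/
def Admitted (a b : ℤ) : Prop := Fam a b ∨ (4 * a ^ 3 + 27 * b ^ 2 ≠ 0 ∧ TwistsModular a b)

/-- The bound `|L(E_d/K, 1 + i t)| ≤ m^β (2 + |t|)^B`, for all real `t` and both squarefree integers `d = ± m`;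
`L(E_d/K, s)` is the `L`-function of `E_d : y² = x³ + a d² x + b d³` over `K` without the Euler factors at the
places dividing `2 (4a³ + 27b²) d D`, with centre `s = 1`. -/
def Lindelof (K : Type) [Field K] [NumberField K] (D : ℤ) (β : ℝ) (B : ℕ) (a b : ℤ) (m : ℕ) : Prop :=
  ∀ d : ℤ, d.natAbs = m → Squarefree d → ∀ F : ℂ → ℂ, IsLFunK K (a * d ^ 2) (b * d ^ 3) D F →
    ∀ t : ℝ, ‖F (1 + t * I)‖ ≤ (m : ℝ) ^ β * (2 + |t|) ^ B

section

variable (K : Type) [Field K] [NumberField K]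

lemma law {a b : ℤ} (h : Admitted a b) : MultiLindelofLaw a b := by
  rcases h with h | ⟨h1, h2⟩
  · exact multiLindelof_fam h
  · exact multiLindelof_modular h1 h2

lemma absorb {s t : ℝ} (hst : s < t) (A : ℕ) : ∃ C : ℝ, 0 ≤ C ∧ ∀ N : ℕ, 1 ≤ N →
    (N : ℝ) ^ s * Real.log N ^ A ≤ C * (N : ℝ) ^ t := by
  set ε : ℝ := (t - s) / (A + 1) with hε
  have hA : (0 : ℝ) < (A : ℝ) + 1 := by positivity
  have hε0 : 0 < ε := div_pos (by linarith) hA
  refine ⟨(1 / ε) ^ A, by positivity, fun N hN => ?_⟩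
  have hN1 : (1 : ℝ) ≤ N := by exact_mod_cast hN
  have hN0 : (0 : ℝ) < N := by linarith
  have h1 : Real.log N ≤ (N : ℝ) ^ ε / ε := Real.log_le_rpow_div hN0.le hε0
  have h2 : Real.log N ^ A ≤ ((N : ℝ) ^ ε / ε) ^ A := pow_le_pow_left₀ (Real.log_nonneg hN1) h1 A
  have h3 : ((N : ℝ) ^ ε / ε) ^ A = (1 / ε) ^ A * (N : ℝ) ^ (ε * A) := by
    rw [div_eq_mul_one_div, mul_pow, ← Real.rpow_natCast ((N : ℝ) ^ ε), ← Real.rpow_mul hN0.le]
    ring
  have h4 : s + ε * A ≤ t := by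
    have h5 : ε * A ≤ ε * (A + 1) := mul_le_mul_of_nonneg_left (by linarith) hε0.le
    have h6 : ε * (A + 1) = t - s := by rw [hε]; field_simp
    linarith
  calc (N : ℝ) ^ s * Real.log N ^ A ≤ (N : ℝ) ^ s * ((1 / ε) ^ A * (N : ℝ) ^ (ε * A)) := by
        rw [← h3]
        exact mul_le_mul_of_nonneg_left h2 (by positivity)
    _ = (1 / ε) ^ A * (N : ℝ) ^ (s + ε * A) := by
        rw [Real.rpow_add hN0]
        ring
    _ ≤ _ := mul_le_mul_of_nonneg_left (Real.rpow_le_rpow_of_exponent_le hN1 h4) (by positivity)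

/-- few exceptions, with a power saving -/
lemma ps {a b : ℤ} (h : MultiLindelofLaw a b) (n : ℕ) (e : Fin n → ℤ) (he : Indep e) (x : Fin n → K)
    (hx : ∀ i, x i ^ 2 = (e i : K)) (hK : IntermediateField.adjoin ℚ (Set.range x) = ⊤) (β : ℝ)
    (hβ : 0 < β) (hβn : 2 * β ≤ 2 ^ n) :
    ∃ B : ℕ, Pool.Agent.Q21.DW.PS (1 - 2 * β / 2 ^ n)
      (fun m => ¬ Lindelof K (∏ i, e i) β B a b m) := by
  classical
  obtain ⟨hex, hlaw⟩ := h n e he K x hx hK
  choose! F hF hFu using hex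
  obtain ⟨⟨C, A, B, -, hcount⟩, -⟩ := hlaw F hF
  refine ⟨B + ⌈β⌉₊, ?_⟩
  have hn0 : (0 : ℝ) < 2 ^ n := by positivity
  have hs0 : 0 ≤ 1 - 2 * β / 2 ^ n := by
    rw [sub_nonneg, div_le_one hn0]
    exact hβn
  refine Pool.Agent.Q21.DW.ps_dyadic' hs0 fun t ht => ?_
  obtain ⟨C', hC'0, hC'⟩ := absorb ht A
  refine ⟨|C| * C', 3, fun N hN3 hN1 => ?_⟩
  have hNR : (1 : ℝ) ≤ N := by exact_mod_cast hN1
  have hN0 : (0 : ℝ) < N := by linarith
  set S : Finset ℤ := (sqf N).filter (fun d => ∃ t : ℝ, (N : ℝ) ^ β * (2 + |t|) ^ B < ‖F d (1 + t * I)‖)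
    with hS
  have hcard := hcount N β S hN3 hβ.le (Finset.filter_subset _ _)
    (fun d hd => (Finset.mem_filter.1 hd).2)
  have hsub : ({m : ℕ | 1 ≤ m ∧ m ≤ N ∧ N < 2 * m ∧
      ¬ Lindelof K (∏ i, e i) β (B + ⌈β⌉₊) a b m} : Set ℕ) ⊆ ((S.image Int.natAbs : Finset ℕ) : Set ℕ) := by
    rintro m ⟨hm1, hmN, hNm, hbad⟩
    unfold Lindelof at hbad
    push Not at hbad
    obtain ⟨d, hdm, hd, G, hG, t, ht⟩ := hbad
    have hGF : G = F d := hFu d hd G hG
    rw [Finset.coe_image, Set.mem_image]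
    refine ⟨d, ?_, hdm⟩
    rw [Finset.mem_coe, hS, Finset.mem_filter, mem_sqf]
    refine ⟨⟨?_, hd⟩, t, ?_⟩
    · rw [Int.abs_eq_natAbs, hdm]
      exact_mod_cast hmN
    · rw [← hGF]
      refine lt_of_le_of_lt ?_ ht
      have hm0 : (0 : ℝ) < m := by exact_mod_cast hm1
      have hu : (2 : ℝ) ≤ 2 + |t| := by linarith [abs_nonneg t]
      have h2m : (N : ℝ) ≤ 2 * m := by exact_mod_cast hNm.le
      have h1 : (N : ℝ) ^ β ≤ 2 ^ β * (m : ℝ) ^ β := by
        rw [← Real.mul_rpow (by norm_num) hm0.le]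
        exact Real.rpow_le_rpow hN0.le h2m hβ.le
      have h2 : (2 : ℝ) ^ β ≤ (2 + |t|) ^ ⌈β⌉₊ := by
        calc (2 : ℝ) ^ β ≤ 2 ^ ((⌈β⌉₊ : ℕ) : ℝ) :=
              Real.rpow_le_rpow_of_exponent_le (by norm_num) (Nat.le_ceil β)
          _ = 2 ^ ⌈β⌉₊ := Real.rpow_natCast _ _
          _ ≤ _ := pow_le_pow_left₀ (by norm_num) hu _
      calc (N : ℝ) ^ β * (2 + |t|) ^ B ≤ (2 ^ β * (m : ℝ) ^ β) * (2 + |t|) ^ B :=
            mul_le_mul_of_nonneg_right h1 (by positivity)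
        _ ≤ ((2 + |t|) ^ ⌈β⌉₊ * (m : ℝ) ^ β) * (2 + |t|) ^ B := by gcongr
        _ = (m : ℝ) ^ β * (2 + |t|) ^ (B + ⌈β⌉₊) := by rw [pow_add]; ring
  calc (({m : ℕ | 1 ≤ m ∧ m ≤ N ∧ N < 2 * m ∧
      ¬ Lindelof K (∏ i, e i) β (B + ⌈β⌉₊) a b m} : Set ℕ).ncard : ℝ)
      ≤ (((S.image Int.natAbs : Finset ℕ) : Set ℕ).ncard : ℝ) := by
        exact_mod_cast Set.ncard_le_ncard hsub (Finset.finite_toSet _)
    _ = ((S.image Int.natAbs).card : ℝ) := by rw [Set.ncard_coe_finset]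
    _ ≤ (S.card : ℝ) := by exact_mod_cast Finset.card_image_le
    _ ≤ C * (N : ℝ) ^ (1 - 2 * β / 2 ^ n) * Real.log N ^ A := hcard
    _ ≤ |C| * ((N : ℝ) ^ (1 - 2 * β / 2 ^ n) * Real.log N ^ A) := by
        rw [mul_assoc]
        refine mul_le_mul_of_nonneg_right (le_abs_self C) ?_
        have := Real.log_nonneg hNR
        positivity
    _ ≤ |C| * (C' * (N : ℝ) ^ t) := mul_le_mul_of_nonneg_left (hC' N hN1) (abs_nonneg C)
    _ = _ := by ring

end

/-- **Theorem.** Let `K = ℚ(√e_1, …, √e_n)` be a multiquadratic field of degree `2ⁿ` and `0 < β ≤ 2ⁿ⁻¹`. There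
are exponents `B a b` such that, in the sense of `RandomReals (1 - 2 β / 2ⁿ)` (digits and dilates of random
real numbers), for all admitted elliptic curves `y² = x³ + a x + b` the Lindelöf bound
`|L(E_d/K, 1 + i t)| ≤ |d|^β (2 + |t|)^(B a b)` holds for all real `t` and all squarefree integers `d` with
`|d| = m`, `m` the random integer. -/
theorem result (n : ℕ) (e : Fin n → ℤ) (he : Indep e) (K : Type) [Field K] [NumberField K]
    (x : Fin n → K) (hx : ∀ i, x i ^ 2 = (e i : K))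
    (hK : IntermediateField.adjoin ℚ (Set.range x) = ⊤) (β : ℝ) (hβ : 0 < β) (hβn : 2 * β ≤ 2 ^ n) :
    ∃ B : ℤ → ℤ → ℕ, Pool.Agent.Q21.DW.RandomReals (1 - 2 * β / 2 ^ n)
      (fun (E : ℤ × ℤ) (m : ℕ) => Admitted E.1 E.2 →
        Lindelof K (∏ i, e i) β (B E.1 E.2) E.1 E.2 m) := by
  classical
  have key : ∀ a b : ℤ, ∃ B : ℕ, Admitted a b → Pool.Agent.Q21.DW.PS (1 - 2 * β / 2 ^ n)
      (fun m => ¬ Lindelof K (∏ i, e i) β B a b m) := by
    intro a b
    by_cases hab : Admitted a b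
    · obtain ⟨B, hB⟩ := ps K (law hab) n e he x hx hK β hβ hβn
      exact ⟨B, fun _ => hB⟩
    · exact ⟨0, fun h => absurd h hab⟩
  choose B hB using key
  refine ⟨B, ?_⟩
  have hn0 : (0 : ℝ) < 2 ^ n := by positivity
  have hs0 : 0 ≤ 1 - 2 * β / 2 ^ n := by
    rw [sub_nonneg, div_le_one hn0]
    exact hβn
  have hs1 : 1 - 2 * β / 2 ^ n < 1 := by
    have : 0 < 2 * β / 2 ^ n := by positivity
    linarith
  refine Pool.Agent.Q21.DW.randomReals_of
    (B := fun (E : ℤ × ℤ) (m : ℕ) => Admitted E.1 E.2 ∧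
      ¬ Lindelof K (∏ i, e i) β (B E.1 E.2) E.1 E.2 m) hs0 hs1 (fun E => ?_) ?_
  · by_cases hE : Admitted E.1 E.2
    · exact (hB E.1 E.2 hE).mono le_rfl fun m hm => hm.2
    · exact Pool.Agent.Q21.DW.ps_false fun m hm => hE hm.1
  · intro E m _ hm hE
    by_contra hcon
    exact hm ⟨hE, hcon⟩

end Pool.Agent.Results.MP_21d687_nt.RandomDiscriminants
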